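import Pool.Agent.TH363.QI.Pre
import Pool.Agent.Helper114.MontelSol
import Pool.Agent.H712R2.MultibrotConnected
import Pool.Agent.H713R2.Ext1

/-!
# A parameter with a neutral cycle is not an interior point of the Mandelbrot set
-/

set_option autoImplicit false

namespace Pool.Agent.Y93.ML

section Core

open Set Filter Topology Metric
open Pool.Agent.W746.LD
open Pool.Agent.TH363.QI

/-- Vitali's theorem: convergence near one point implies convergence on the whole domain. -/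
theorem vitali {V : Set ℂ} (hVo : IsOpen V) (hVc : IsPreconnected V) (F : ℕ → ℂ → ℂ)
    (hF : ∀ n, DifferentiableOn ℂ (F n) V) (M : ℝ) (hM : ∀ n, ∀ z ∈ V, ‖F n z‖ ≤ M)
    {a : ℂ} (ha : a ∈ V) (g0 : ℂ → ℂ)
    (hconv : ∀ᶠ t in 𝓝 a, Tendsto (fun n => F n t) atTop (𝓝 (g0 t))) :
    ∃ g : ℂ → ℂ, DifferentiableOn ℂ g V ∧ ∀ t ∈ V, Tendsto (fun n => F n t) atTop (𝓝 (g t)) := by
  obtain ⟨Φ, hΦd, hΦ⟩ := Pool.Agent.Helper114.Montel.montel hVo F hF M hM (hyperfilter ℕ)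
  have hloc : ∀ (𝒰 : Ultrafilter ℕ), (𝒰 : Filter ℕ) ≤ atTop → ∀ Ψ : ℂ → ℂ,
      TendstoLocallyUniformlyOn F Ψ (𝒰 : Filter ℕ) V → Ψ =ᶠ[𝓝 a] g0 := by
    intro 𝒰 h𝒰 Ψ hΨ
    filter_upwards [hconv, hVo.mem_nhds ha] with t ht htV
    exact tendsto_nhds_unique (hΨ.tendsto_at htV) (ht.mono_left h𝒰)
  refine ⟨Φ, hΦd, fun t ht => ?_⟩
  rw [Filter.tendsto_iff_ultrafilter]
  intro 𝒰 h𝒰
  obtain ⟨Ψ, hΨd, hΨ⟩ := Pool.Agent.Helper114.Montel.montel hVo F hF M hM 𝒰
  have h1 := hloc 𝒰 h𝒰 Ψ hΨ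
  have h2 := hloc (hyperfilter ℕ) Nat.hyperfilter_le_atTop Φ hΦ
  have h3 : Ψ =ᶠ[𝓝 a] Φ := h1.trans h2.symm
  have h4 : EqOn Ψ Φ V := (hΨd.analyticOnNhd hVo).eqOn_of_preconnected_of_eventuallyEq
    (hΦd.analyticOnNhd hVo) hVc ha h3
  rw [← h4 ht]
  exact hΨ.tendsto_at ht

/-- Local contraction near an attracting periodic point, uniformly in the parameter. -/
theorem local_contr {n p : ℕ} {t₀ z₀ : ℂ} (h : ‖P n t₀ z₀ p‖ < 1) :
    ∃ ε > 0, ∃ θ : ℝ, 0 ≤ θ ∧ θ < 1 ∧ ∀ t ∈ ball t₀ ε, ∀ z ∈ ball z₀ ε, ∀ w ∈ ball z₀ ε,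
      ‖orb n t z p - orb n t w p‖ ≤ θ * ‖z - w‖ := by
  set L := P n t₀ z₀ p with hL
  have hL0 : 0 ≤ ‖L‖ := norm_nonneg _
  have hc := (continuous_P2 n p).tendsto (t₀, z₀)
  rw [Metric.tendsto_nhds_nhds] at hc
  obtain ⟨ε, hε, h1⟩ := hc ((1 - ‖L‖) / 2) (by linarith)
  refine ⟨ε, hε, (‖L‖ + 1) / 2, by linarith, by linarith, ?_⟩
  intro t ht z hz w hw
  have hb : ∀ x ∈ ball z₀ ε, ‖P n t x p‖ ≤ (‖L‖ + 1) / 2 := by
    intro x hx
    have h2 : dist (t, x) (t₀, z₀) < ε := by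
      rw [Prod.dist_eq, max_lt_iff]
      exact ⟨ht, hx⟩
    have h3 := h1 h2
    rw [dist_eq_norm] at h3
    have h4 := norm_sub_norm_le (P n t x p) (P n t₀ z₀ p)
    rw [← hL] at h4
    simp only at h3
    rw [← hL] at h3
    linarith
  exact (convex_ball z₀ ε).norm_image_sub_le_of_norm_hasDerivWithin_le
    (fun x _ => (hasDerivAt_orb (n := n) (c := t) x p).hasDerivWithinAt) hb hw hz

theorem orb_mul {n : ℕ} {c z : ℂ} {m : ℕ} (h : orb n c z m = z) (k : ℕ) :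
    orb n c z (m * k) = z ∧ P n c z (m * k) = (P n c z m) ^ k := by
  induction k with
  | zero => simp
  | succ k ih =>
    obtain ⟨h1, h2⟩ := ih
    rw [Nat.mul_succ, orb_add, h1, P_add, h1, h2, pow_succ]
    exact ⟨h, rfl⟩

/-- The multiplier is the same along a cycle. -/
theorem mult_orb_one {n : ℕ} {c z : ℂ} {m : ℕ} (h : orb n c z m = z) :
    P n c (orb n c z 1) m = P n c z m := by
  have e1 := P_add (n := n) (c := c) z m 1
  have e2 := P_add (n := n) (c := c) z 1 m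
  rw [h] at e1
  rw [add_comm 1 m, e1] at e2
  by_cases h0 : P n c z 1 = 0
  · rcases Nat.eq_zero_or_pos m with rfl | hm
    · simp
    · obtain ⟨k, rfl⟩ : ∃ k, m = k + 1 := ⟨m - 1, by omega⟩
      have h1 : P n c z (k + 1) = 0 := by
        rw [add_comm, P_add, h0, zero_mul]
      have h2 : P n c (orb n c z 1) (k + 1) = 0 := by
        rw [P_add, ← orb_add, add_comm 1 k, h, h0, mul_zero]
      rw [h1, h2]
  · have : P n c z 1 * (P n c (orb n c z 1) m - P n c z m) = 0 := by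
      rw [mul_sub, ← e2]; ring
    rcases mul_eq_zero.mp this with h1 | h1
    · exact absurd h1 h0
    · exact sub_eq_zero.mp h1

theorem orb_fix {n : ℕ} {c z : ℂ} {m : ℕ} (h : orb n c z m = z) (s : ℕ) :
    orb n c (orb n c z s) m = orb n c z s := by
  rw [← orb_add, add_comm, orb_add, h]

theorem mult_orb {n : ℕ} {c z : ℂ} {m : ℕ} (h : orb n c z m = z) (s : ℕ) :
    P n c (orb n c z s) m = P n c z m := by
  induction s with
  | zero => simp
  | succ s ih => rw [orb_add, mult_orb_one (orb_fix h s), ih]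

theorem diff_orb {n : ℕ} {V : Set ℂ} {g : ℂ → ℂ} (hg : DifferentiableOn ℂ g V) (k : ℕ) :
    DifferentiableOn ℂ (fun t => orb n t (g t) k) V := by
  induction k with
  | zero => simpa using hg
  | succ k ih =>
    simp only [orb_succ]
    exact (ih.pow n).add differentiableOn_id

theorem diff_P {n : ℕ} {V : Set ℂ} {g : ℂ → ℂ} (hg : DifferentiableOn ℂ g V) (k : ℕ) :
    DifferentiableOn ℂ (fun t => P n t (g t) k) V := by
  induction k with
  | zero => simpa using differentiableOn_const 1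
  | succ k ih =>
    simp only [P_succ]
    exact ih.mul ((differentiableOn_const _).mul ((diff_orb hg k).pow _))

theorem orb_zero_bd {t : ℂ} (h : t ∈ N62a1eb23.multibrotSet 2) (k : ℕ) : ‖orb 2 t 0 k‖ ≤ 2 :=
  (Pool.Agent.H712R2.mem_multibrot_iff le_rfl t).mp h k

/-- The critical orbit converges along the multiples of the period, near an attracting
parameter. -/
theorem conv_near {t₁ z₁ : ℂ} {m j : ℕ} (hfix : orb 2 t₁ z₁ m = z₁) (hat : ‖P 2 t₁ z₁ m‖ < 1)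
    (hlim : Tendsto (fun k => orb 2 t₁ 0 (j + m * k)) atTop (𝓝 z₁)) :
    ∃ g0 : ℂ → ℂ, ∀ᶠ t in 𝓝 t₁,
      Tendsto (fun k => orb 2 t 0 (j + m * k)) atTop (𝓝 (g0 t)) := by
  obtain ⟨ε, hε, θ, hθ0, hθ1, hcon⟩ := local_contr hat
  have hε2 : 0 < ε / 2 := by positivity
  obtain ⟨K, hK⟩ := (hlim.eventually (ball_mem_nhds z₁ hε2)).exists
  have hcF : ∀ k, Continuous fun t : ℂ => orb 2 t 0 k := by
    intro k
    exact (continuous_orb2 2 k).comp (continuous_id.prodMk continuous_const)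
  have e1 : ∀ᶠ t in 𝓝 t₁, orb 2 t 0 (j + m * K) ∈ ball z₁ (ε / 2) :=
    (hcF (j + m * K)).continuousAt.eventually_mem (isOpen_ball.mem_nhds hK)
  have e2 : ∀ᶠ t in 𝓝 t₁, orb 2 t z₁ m ∈ ball z₁ ((1 - θ) * (ε / 2)) := by
    have hc : Continuous fun t : ℂ => orb 2 t z₁ m :=
      (continuous_orb2 2 m).comp (continuous_id.prodMk continuous_const)
    refine hc.continuousAt.eventually_mem (isOpen_ball.mem_nhds ?_)
    rw [hfix]
    exact mem_ball_self (mul_pos (by linarith) hε2)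
  have key : ∀ᶠ t in 𝓝 t₁, ∃ v, Tendsto (fun k => orb 2 t 0 (j + m * k)) atTop (𝓝 v) := by
    filter_upwards [e1, e2, ball_mem_nhds t₁ hε] with t h1 h2 h3
    have hsub : ball z₁ (ε / 2) ⊆ ball z₁ ε := ball_subset_ball (by linarith)
    have hstep : ∀ k, orb 2 t 0 (j + m * (k + 1)) = orb 2 t (orb 2 t 0 (j + m * k)) m := by
      intro k
      rw [← orb_add]
      congr 1
      ring
    have hin : ∀ s, orb 2 t 0 (j + m * (K + s)) ∈ ball z₁ (ε / 2) := by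
      intro s
      induction s with
      | zero => exact h1
      | succ s ih =>
        rw [← add_assoc, hstep, mem_ball, dist_eq_norm]
        have h4 := hcon t h3 _ (hsub ih) z₁ (mem_ball_self hε)
        rw [mem_ball, dist_eq_norm] at ih h2
        have h5 := norm_add_le (orb 2 t (orb 2 t 0 (j + m * (K + s))) m - orb 2 t z₁ m)
          (orb 2 t z₁ m - z₁)
        rw [sub_add_sub_cancel] at h5
        have h6 : θ * ‖orb 2 t 0 (j + m * (K + s)) - z₁‖ ≤ θ * (ε / 2) :=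
          mul_le_mul_of_nonneg_left ih.le hθ0
        nlinarith
    have hcau : CauchySeq fun s => orb 2 t 0 (j + m * (K + s)) := by
      refine cauchySeq_of_le_geometric θ (‖orb 2 t 0 (j + m * (K + 0)) -
        orb 2 t 0 (j + m * (K + 1))‖) hθ1 ?_
      intro s
      induction s with
      | zero =>
        rw [pow_zero, mul_one, dist_eq_norm]
      | succ s ih =>
        rw [dist_eq_norm] at ih ⊢
        have h4 := hcon t h3 _ (hsub (hin s)) _ (hsub (hin (s + 1)))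
        rw [← hstep, ← hstep] at h4
        calc ‖orb 2 t 0 (j + m * (K + (s + 1))) - orb 2 t 0 (j + m * (K + (s + 1 + 1)))‖
            ≤ θ * ‖orb 2 t 0 (j + m * (K + s)) - orb 2 t 0 (j + m * (K + (s + 1)))‖ := h4
          _ ≤ θ * (_ * θ ^ s) := mul_le_mul_of_nonneg_left ih hθ0
          _ = _ := by rw [pow_succ]; ring
    obtain ⟨v, hv⟩ := cauchySeq_tendsto_of_complete hcau
    refine ⟨v, ?_⟩
    have h4 : Tendsto (fun s => orb 2 t 0 (j + m * (s + K))) atTop (𝓝 v) := by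
      refine hv.congr fun s => ?_
      rw [add_comm K s]
    exact (tendsto_add_atTop_iff_nat (f := fun k => orb 2 t 0 (j + m * k)) K).mp h4
  classical
  refine ⟨fun t => if h : ∃ v, Tendsto (fun k => orb 2 t 0 (j + m * k)) atTop (𝓝 v) then h.choose
    else 0, ?_⟩
  filter_upwards [key] with t ht
  rw [dif_pos ht]
  exact ht.choose_spec

/-- The critical orbit does not become periodic on an uncountable set of parameters. -/
theorem not_eventually_periodic {U : Set ℂ} (hU : IsOpen U) (hne : U.Nonempty) {m j : ℕ}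
    (hm : 1 ≤ m) :
    ∃ t ∈ U, ∀ K, 1 ≤ K → orb 2 t 0 (j + m * (K + 1)) ≠ orb 2 t 0 (j + m * K) := by
  have hfin : ∀ K, 1 ≤ K →
      {t : ℂ | orb 2 t 0 (j + m * (K + 1)) = orb 2 t 0 (j + m * K)}.Finite := by
    intro K hK
    by_contra hinf
    have hmK : 1 ≤ m * K := Nat.one_le_iff_ne_zero.mpr (by positivity)
    obtain ⟨l, hl⟩ : ∃ l, j + m * K = l + 1 := ⟨j + m * K - 1, by omega⟩
    have hl2 : j + m * (K + 1) = (l + m) + 1 := by
      have : m * (K + 1) = m * K + m := by ring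
      omega
    rw [hl, hl2] at hinf
    have hpoly : Pool.Agent.H712R2.PP 2 (l + m + 1) - Pool.Agent.H712R2.PP 2 (l + 1) = 0 := by
      apply Polynomial.eq_zero_of_infinite_isRoot
      refine Set.Infinite.mono ?_ hinf
      intro t ht
      change Polynomial.IsRoot _ t
      rw [Polynomial.IsRoot.def, Polynomial.eval_sub, Pool.Agent.H712R2.eval_PP,
        Pool.Agent.H712R2.eval_PP]
      have ht' : orb 2 t 0 (l + m + 1) = orb 2 t 0 (l + 1) := ht
      exact sub_eq_zero.mpr ht'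
    have hdeg := congrArg Polynomial.natDegree (sub_eq_zero.mp hpoly)
    rw [Pool.Agent.H712R2.natDegree_PP le_rfl, Pool.Agent.H712R2.natDegree_PP le_rfl] at hdeg
    have := Nat.pow_right_injective le_rfl hdeg
    omega
  have hcount : (⋃ K ∈ {K : ℕ | 1 ≤ K},
      {t : ℂ | orb 2 t 0 (j + m * (K + 1)) = orb 2 t 0 (j + m * K)}).Countable :=
    Set.Countable.biUnion (Set.to_countable _) fun K hK => (hfin K hK).countable
  obtain ⟨t, ht, htc⟩ := (hcount.dense_compl ℝ).inter_open_nonempty U hU hne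
  refine ⟨t, ht, fun K hK h => htc ?_⟩
  exact Set.mem_biUnion (x := K) hK h

/-- The core: in a ball inside the Mandelbrot set which contains an attracting parameter every
parameter is attracting, with a uniform bound on smaller balls for the multipliers of the
attracting cycles. -/
theorem attracting_all
    (hA : ∀ (c z : ℂ) (N : ℕ), 1 ≤ N → orb 2 c z N = z → ‖P 2 c z N‖ < 1 →
      ∃ j, Tendsto (fun k => orb 2 c 0 (j + N * k)) atTop (𝓝 z))
    {t₀ : ℂ} {δ : ℝ} (hsub : ball t₀ δ ⊆ N62a1eb23.multibrotSet 2)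
    {t₁ z₁ : ℂ} {m : ℕ} (hm : 1 ≤ m) (ht₁ : t₁ ∈ ball t₀ δ) (hfix : orb 2 t₁ z₁ m = z₁)
    (hat : ‖P 2 t₁ z₁ m‖ < 1) :
    ∃ Λ : ℂ → ℂ, DifferentiableOn ℂ Λ (ball t₀ δ) ∧ (∀ t ∈ ball t₀ δ, ‖Λ t‖ < 1) ∧
      ∀ t ∈ ball t₀ δ, ∀ z, orb 2 t z m = z → ‖P 2 t z m‖ < 1 → P 2 t z m = Λ t := by
  obtain ⟨j, hj⟩ := hA t₁ z₁ m hm hfix hat
  obtain ⟨g0, hg0⟩ := conv_near hfix hat hj
  have hFd : ∀ k : ℕ, DifferentiableOn ℂ (fun t => orb 2 t 0 (j + m * k)) (ball t₀ δ) :=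
    fun k => diff_orb (g := fun _ => 0) (differentiableOn_const _) _
  obtain ⟨g, hgd, hg⟩ := vitali isOpen_ball (convex_ball t₀ δ).isPreconnected
    (fun k t => orb 2 t 0 (j + m * k)) hFd 2 (fun k t ht => orb_zero_bd (hsub ht) _) ht₁ g0 hg0
  have hstep : ∀ (t : ℂ) (k : ℕ),
      orb 2 t 0 (j + m * (k + 1)) = orb 2 t (orb 2 t 0 (j + m * k)) m := by
    intro t k
    rw [← orb_add]
    congr 1
    ring
  have hcz : ∀ (t : ℂ) (k : ℕ), Continuous fun z : ℂ => orb 2 t z k := fun t k =>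
    (continuous_orb2 2 k).comp (continuous_const.prodMk continuous_id)
  have hgfix : ∀ t ∈ ball t₀ δ, orb 2 t (g t) m = g t := by
    intro t ht
    have h1 := (hg t ht).comp (tendsto_add_atTop_nat 1)
    have h2 := ((hcz t m).tendsto (g t)).comp (hg t ht)
    refine tendsto_nhds_unique h2 (h1.congr fun k => ?_)
    exact hstep t k
  have hg1 : g t₁ = z₁ := tendsto_nhds_unique (hg t₁ ht₁) hj
  have hΛd : DifferentiableOn ℂ (fun t => P 2 t (g t) m) (ball t₀ δ) := diff_P hgd m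
  -- the modulus is at most one
  have hle : ∀ t ∈ ball t₀ δ, ‖P 2 t (g t) m‖ ≤ 1 := by
    intro t₂ ht₂
    by_contra hcon
    rw [not_le] at hcon
    obtain ⟨ε, hε, θ, hθ, hexp⟩ := local_exp hcon
    have hgc : ContinuousAt g t₂ := (hgd.differentiableAt (isOpen_ball.mem_nhds ht₂)).continuousAt
    have hev : ∀ᶠ t in 𝓝 t₂, t ∈ ball t₀ δ ∧ t ∈ ball t₂ ε ∧ g t ∈ ball (g t₂) ε := by
      filter_upwards [isOpen_ball.mem_nhds ht₂, ball_mem_nhds t₂ hε,
        hgc.eventually_mem (ball_mem_nhds _ hε)] with t h1 h2 h3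
      exact ⟨h1, h2, h3⟩
    obtain ⟨U, hUsub, hUo, hUt⟩ := _root_.mem_nhds_iff.mp hev
    obtain ⟨t, htU, hno⟩ := not_eventually_periodic (j := j) hUo ⟨t₂, hUt⟩ hm
    obtain ⟨htV, htε, hgt⟩ := hUsub htU
    have hlim := hg t htV
    obtain ⟨K, hK⟩ := eventually_atTop.mp (hlim.eventually_mem (isOpen_ball.mem_nhds hgt))
    have hmono : ∀ k, K ≤ k → ‖orb 2 t 0 (j + m * k) - g t‖ ≤
        ‖orb 2 t 0 (j + m * (k + 1)) - g t‖ := by
      intro k hk
      have h1 := hexp t htε _ (hK k hk) _ hgt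
      rw [← hstep, hgfix t htV] at h1
      have h2 : 0 ≤ ‖orb 2 t 0 (j + m * k) - g t‖ := norm_nonneg _
      nlinarith
    have heq : ∀ k, K ≤ k → orb 2 t 0 (j + m * k) = g t := by
      intro k hk
      have h1 : ∀ s, ‖orb 2 t 0 (j + m * k) - g t‖ ≤ ‖orb 2 t 0 (j + m * (k + s)) - g t‖ := by
        intro s
        induction s with
        | zero => exact le_rfl
        | succ s ih => exact ih.trans (hmono (k + s) (by omega))
      have h2 : Tendsto (fun s => ‖orb 2 t 0 (j + m * (k + s)) - g t‖) atTop (𝓝 ‖g t - g t‖) := by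
        have h3 : Tendsto (fun s => orb 2 t 0 (j + m * (s + k))) atTop (𝓝 (g t)) :=
          hlim.comp (tendsto_add_atTop_nat k)
        have h4 := (h3.sub_const (g t)).norm
        refine h4.congr fun s => ?_
        rw [add_comm s k]
      have h3 := ge_of_tendsto h2 (Eventually.of_forall h1)
      rw [sub_self, norm_zero] at h3
      exact sub_eq_zero.mp (norm_eq_zero.mp (le_antisymm h3 (norm_nonneg _)))
    refine hno (K + 1) (by omega) ?_
    rw [heq (K + 1 + 1) (by omega), heq (K + 1) (by omega)]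
  have hlt : ∀ t ∈ ball t₀ δ, ‖P 2 t (g t) m‖ < 1 := by
    intro t ht
    refine lt_of_le_of_ne (hle t ht) fun h1 => ?_
    have hmax : IsMaxOn (norm ∘ fun t => P 2 t (g t) m) (ball t₀ δ) t := by
      intro s hs
      show ‖P 2 s (g s) m‖ ≤ ‖P 2 t (g t) m‖
      rw [h1]
      exact hle s hs
    have h2 := Complex.norm_eqOn_of_isPreconnected_of_isMaxOn
      (convex_ball t₀ δ).isPreconnected isOpen_ball hΛd ht hmax
    have h3 := h2 ht₁
    simp only [Function.comp_apply, Function.const_apply] at h3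
    rw [hg1, h1] at h3
    linarith
  refine ⟨fun t => P 2 t (g t) m, hΛd, hlt, ?_⟩
  intro t ht z hz hzat
  obtain ⟨j', hj'⟩ := hA t z m hm hz hzat
  have h1 := ((hcz t j').tendsto (g t)).comp (hg t ht)
  have h2 := ((hcz t j).tendsto z).comp hj'
  have h3 : orb 2 t (g t) j' = orb 2 t z j := by
    refine tendsto_nhds_unique h1 (h2.congr fun k => ?_)
    show orb 2 t (orb 2 t 0 (j' + m * k)) j = orb 2 t (orb 2 t 0 (j + m * k)) j'
    rw [← orb_add, ← orb_add]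
    congr 1
    ring
  show P 2 t z m = P 2 t (g t) m
  rw [← mult_orb hz j, ← h3, mult_orb (hgfix t ht) j']

/-- The main statement in terms of orbits. -/
theorem core
    (hA : ∀ (c z : ℂ) (N : ℕ), 1 ≤ N → orb 2 c z N = z → ‖P 2 c z N‖ < 1 →
      ∃ j, Tendsto (fun k => orb 2 c 0 (j + N * k)) atTop (𝓝 z))
    {t₀ z₀ : ℂ} {m : ℕ} (hm : 1 ≤ m) (hfix : orb 2 t₀ z₀ m = z₀) (hn : ‖P 2 t₀ z₀ m‖ = 1)
    {δ : ℝ} (hδ : 0 < δ) (hsub : ball t₀ δ ⊆ N62a1eb23.multibrotSet 2) : False := by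
  -- an attracting parameter in the ball
  obtain ⟨t₁, ht₁, m', z₁, hm', hfix₁, hat₁⟩ : ∃ t ∈ ball t₀ δ, ∃ m' z, 1 ≤ m' ∧
      orb 2 t z m' = z ∧ ‖P 2 t z m'‖ < 1 := by
    by_contra hcon
    have h1 := cyc (n := 2) le_rfl (a := t₀) (r := δ) ?_ (mem_ball_self hδ) hm hfix
    · rw [hn] at h1
      exact lt_irrefl _ h1
    · rintro t ht ⟨m', z, h1, h2, _, h4⟩
      refine hcon ⟨t, ht, m', z, h1, h2, ?_⟩
      have h5 := (hasDerivAt_orb (n := 2) (c := t) z m').deriv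
      have h6 : deriv (fun z => z ^ 2 + t)^[m'] z = P 2 t z m' := h5
      rw [← h6]
      exact h4
  set N := m * m' with hN
  have hN1 : 1 ≤ N := Nat.one_le_iff_ne_zero.mpr (by positivity)
  have hz₀ := orb_mul hfix m'
  have hz₁ : orb 2 t₁ z₁ N = z₁ ∧ P 2 t₁ z₁ N = (P 2 t₁ z₁ m') ^ m := by
    rw [hN, mul_comm]
    exact orb_mul hfix₁ m
  rw [← hN] at hz₀
  have hn₀ : ‖P 2 t₀ z₀ N‖ = 1 := by rw [hz₀.2, norm_pow, hn, one_pow]
  have hat : ‖P 2 t₁ z₁ N‖ < 1 := by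
    rw [hz₁.2, norm_pow]
    exact pow_lt_one₀ (norm_nonneg _) hat₁ (by omega)
  obtain ⟨Λ, hΛd, hΛ1, hΛ⟩ := attracting_all hA hsub hN1 ht₁ hz₁.1 hat
  -- uniform bound on the smaller ball
  have hcb : closedBall t₀ (δ / 2) ⊆ ball t₀ δ := closedBall_subset_ball (by linarith)
  obtain ⟨ρ, hρ1, hρ⟩ : ∃ ρ : ℝ, ρ < 1 ∧ ∀ t ∈ closedBall t₀ (δ / 2), ‖Λ t‖ ≤ ρ := by
    obtain ⟨w, hw, hmax⟩ := (isCompact_closedBall t₀ (δ / 2)).exists_isMaxOn
      ⟨t₀, mem_closedBall_self (by linarith)⟩ (hΛd.continuousOn.mono hcb).norm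
    exact ⟨‖Λ w‖, hΛ1 w (hcb hw), fun t ht => hmax ht⟩
  set l₀ := P 2 t₀ z₀ N with hl₀
  -- the sequence of multipliers
  obtain ⟨J, hJ⟩ : ∃ J : ℕ, ρ < 1 - 1 / ((J : ℝ) + 1) := by
    have h1 : Tendsto (fun j : ℕ => 1 - 1 / ((j : ℝ) + 1)) atTop (𝓝 (1 - 0)) :=
      tendsto_const_nhds.sub tendsto_one_div_add_atTop_nhds_zero_nat
    rw [sub_zero] at h1
    exact (h1.eventually (lt_mem_nhds hρ1)).exists
  set s : ℕ → ℂ := fun j => (1 - 1 / (((j + J : ℕ) : ℂ) + 1)) * l₀ with hs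
  have hnorm : ∀ j, ‖s j‖ = 1 - 1 / (((j + J : ℕ) : ℝ) + 1) := by
    intro j
    have h1 : (1 - 1 / (((j + J : ℕ) : ℂ) + 1)) =
        (((1 - 1 / (((j + J : ℕ) : ℝ) + 1)) : ℝ) : ℂ) := by push_cast; ring
    have h2 : 0 ≤ 1 - 1 / (((j + J : ℕ) : ℝ) + 1) := by
      rw [sub_nonneg, div_le_one (by positivity)]
      linarith [(Nat.cast_nonneg (j + J) : (0:ℝ) ≤ ((j + J : ℕ) : ℝ))]
    rw [hs]
    simp only
    rw [norm_mul, hn₀, mul_one, h1, Complex.norm_real, Real.norm_eq_abs, abs_of_nonneg h2]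
  have hsn : ∀ j, ‖s j‖ < 1 := by
    intro j
    rw [hnorm]
    have : 0 < 1 / (((j + J : ℕ) : ℝ) + 1) := by positivity
    linarith
  have hsρ : ∀ j, ρ < ‖s j‖ := by
    intro j
    rw [hnorm]
    have : 1 / (((j + J : ℕ) : ℝ) + 1) ≤ 1 / ((J : ℝ) + 1) := by
      apply one_div_le_one_div_of_le (by positivity)
      push_cast
      linarith [(Nat.cast_nonneg j : (0:ℝ) ≤ j)]
    linarith
  have hst : Tendsto s atTop (𝓝 l₀) := by
    have h0 : Tendsto (fun j : ℕ => (1 - 1 / ((j : ℂ) + 1))) atTop (𝓝 (1 - 0)) :=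
      tendsto_const_nhds.sub tendsto_one_div_add_atTop_nhds_zero_nat
    have h1 := (h0.comp (tendsto_add_atTop_nat J)).mul_const l₀
    rw [sub_zero, one_mul] at h1
    exact h1
  have hV : IsOpen (ball t₀ (δ / 2)) := isOpen_ball
  obtain ⟨M, hM⟩ : ∃ M : ℝ, ∀ x ∈ closedBall t₀ (δ / 2) ×ˢ closedBall (0 : ℂ) 1,
      ‖ev x.1 x.2 (Rr 2 N)‖ ≤ M :=
    ((isCompact_closedBall t₀ (δ / 2)).prod
      (isCompact_closedBall (0 : ℂ) 1)).exists_bound_of_continuousOn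
      (continuous_ev (Rr 2 N)).continuousOn
  have hlim : TendstoLocallyUniformlyOn (fun j t => (Ql 2 N (s j)).eval t)
      (fun t => (Ql 2 N l₀).eval t) atTop (ball t₀ (δ / 2)) := by
    apply Pool.Agent.Helper859.Br.C1.tlu_of_pointwise hV (M := M)
    · intro j
      exact (Ql 2 N (s j)).differentiable.differentiableOn
    · intro j t ht
      rw [eval_Ql]
      exact hM (t, s j) ⟨ball_subset_closedBall ht, by
        rw [mem_closedBall, dist_zero_right]; exact (hsn j).le⟩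
    · intro t _
      have h1 : Tendsto (fun x : ℂ × ℂ => ev x.1 x.2 (Rr 2 N)) (𝓝 (t, l₀))
          (𝓝 (ev t l₀ (Rr 2 N))) := (continuous_ev (Rr 2 N)).tendsto (t, l₀)
      have h2 : Tendsto (fun j => (t, s j)) atTop (𝓝 (t, l₀)) :=
        tendsto_const_nhds.prodMk_nhds hst
      have h3 : Tendsto (fun j => ev t (s j) (Rr 2 N)) atTop (𝓝 (ev t l₀ (Rr 2 N))) := h1.comp h2
      rw [eval_Ql]
      refine h3.congr fun j => ?_
      rw [eval_Ql]
  have hne : ∀ j, ∀ t ∈ ball t₀ (δ / 2), (Ql 2 N (s j)).eval t ≠ 0 := by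
    intro j t ht h
    have h' : ev t (s j) (Rr 2 N) = 0 := by rw [← eval_Ql]; exact h
    obtain ⟨z, h1, h2⟩ := (ev_Rr le_rfl hN1 t (s j)).mp h'
    have htc : t ∈ closedBall t₀ (δ / 2) := ball_subset_closedBall ht
    have h3 := hΛ t (hcb htc) z h1 (by rw [h2]; exact hsn j)
    have h4 := hρ t htc
    rw [← h3, h2] at h4
    exact absurd (hsρ j) (not_lt.mpr h4)
  have h0 : (Ql 2 N l₀).eval t₀ = 0 := by
    rw [eval_Ql]
    exact (ev_Rr le_rfl hN1 t₀ l₀).mpr ⟨z₀, hz₀.1, hl₀.symm⟩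
  have hev := Pool.Agent.Helper859.Br.C1.hurwitz hV
    (fun j => (Ql 2 N (s j)).differentiable.differentiableOn) hlim hne
    (mem_ball_self (by linarith)) h0
  have hQ : Ql 2 N l₀ = 0 := by
    apply Polynomial.eq_zero_of_infinite_isRoot
    have h1 : {z | (Ql 2 N l₀).eval z = 0} ∈ 𝓝 t₀ := hev
    have h2 : {z | (Ql 2 N l₀).eval z = 0}.Infinite := infinite_of_mem_nhds t₀ h1
    exact h2
  have h1 : ev 0 l₀ (Rr 2 N) = 0 := by rw [← eval_Ql, hQ, Polynomial.eval_zero]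
  obtain ⟨z, h2, h3⟩ := (ev_Rr le_rfl hN1 0 l₀).mp h1
  apply zero_case le_rfl hN1 h2
  rw [h3, hn₀]

end Core

section Main

open Complex Metric Set Filter Topology Pool.Agent.H712R2 Pool.Agent.H713R2 N62a1eb23

theorem deriv_fc (c z : ℂ) (m : ℕ) :
    deriv ((fc 2 c)^[m]) z = Pool.Agent.W746.LD.P 2 c z m :=
  (Pool.Agent.W746.LD.hasDerivAt_orb (n := 2) (c := c) z m).deriv

/-- MLC-BDY, also for the multiplier one -/
theorem near_outside' {t₀ z₀ : ℂ} {m : ℕ} (hm : 1 ≤ m) (hfix : (fc 2 t₀)^[m] z₀ = z₀)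
    (hn : ‖deriv ((fc 2 t₀)^[m]) z₀‖ = 1)
    (hA : ∀ (c z : ℂ) (N : ℕ), 1 ≤ N → (fc 2 c)^[N] z = z → ‖deriv ((fc 2 c)^[N]) z‖ < 1 →
      ∃ j, Tendsto (fun k => P 2 (j + N * k) c) atTop (𝓝 z)) {δ : ℝ} (hδ : 0 < δ) :
    ∃ t ∈ ball t₀ δ, t ∉ multibrotSet 2 := by
  by_contra hcon
  push Not at hcon
  refine core (t₀ := t₀) (z₀ := z₀) (m := m) ?_ hm hfix ?_ hδ hcon
  · intro c z N hN h1 h2
    refine hA c z N hN h1 ?_
    rw [deriv_fc]
    exact h2
  · rw [← deriv_fc]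
    exact hn

/-- MLC-BDY -/
theorem near_outside {t₀ z₀ : ℂ} {m : ℕ} (hm : 1 ≤ m) (hfix : (fc 2 t₀)^[m] z₀ = z₀)
    (_hne : deriv ((fc 2 t₀)^[m]) z₀ ≠ 1) (hn : ‖deriv ((fc 2 t₀)^[m]) z₀‖ = 1)
    (hA : ∀ (c z : ℂ) (N : ℕ), 1 ≤ N → (fc 2 c)^[N] z = z → ‖deriv ((fc 2 c)^[N]) z‖ < 1 →
      ∃ j, Tendsto (fun k => P 2 (j + N * k) c) atTop (𝓝 z)) {δ : ℝ} (hδ : 0 < δ) :
    ∃ t ∈ ball t₀ δ, t ∉ multibrotSet 2 :=
  near_outside' hm hfix hn hA hδ

end Main

end Pool.Agent.Y93.ML
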